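import Mathlib

set_option autoImplicit false

open Filter Finset
open scoped Topology InnerProductSpace ComplexConjugate ENNReal

namespace Pool.Agent.Results.MP_27f8b5_an.Counter

section core
variable {H : Type} [NormedAddCommGroup H] [InnerProductSpace ℂ H]

lemma orth (U : H →L[ℂ] H) (hU : ∀ x, ‖U x‖ = ‖x‖) (v : H) (h : ∀ j, ⟪v, (U ^ (j + 1)) v⟫_ℂ = 0)
    (M : ℕ) : ‖(∑ j ∈ range M, U ^ j) v‖ ^ 2 = M * ‖v‖ ^ 2 := by
  induction M with
  | zero => simp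
  | succ M ih =>
    have e : (∑ j ∈ range (M + 1), U ^ j) v = v + U ((∑ j ∈ range M, U ^ j) v) := by
      rw [geom_sum_succ]
      simp [add_comm]
    have o : ⟪v, U ((∑ j ∈ range M, U ^ j) v)⟫_ℂ = 0 := by
      rw [ContinuousLinearMap.sum_apply, map_sum, inner_sum]
      exact sum_eq_zero fun j _ => by rw [← h j, pow_succ']; rfl
    rw [e, @norm_add_sq ℂ, o, hU, ih]
    simp
    ring

lemma tele (P : H →L[ℂ] H) (hP : ∀ x, ‖P x‖ ≤ ‖x‖) (l : ℂ) (hl : ‖l‖ ≤ 1) (y : H) (n : ℕ) :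
    ‖(P ^ n) y‖ ≤ ‖y‖ ∧ ‖(P ^ n) y - l ^ n • y‖ ≤ n * ‖P y - l • y‖ := by
  induction n with
  | zero => simp
  | succ n ih =>
    refine ⟨by rw [pow_succ']; exact (hP _).trans ih.1, ?_⟩
    have e : (P ^ (n + 1)) y - l ^ (n + 1) • y =
        P ((P ^ n) y - l ^ n • y) + l ^ n • (P y - l • y) := by
      rw [pow_succ', map_sub, map_smul, smul_sub, smul_smul, pow_succ l]
      simp
    have h1 := hP ((P ^ n) y - l ^ n • y)
    have h2 : ‖l ^ n • (P y - l • y)‖ ≤ ‖P y - l • y‖ := by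
      rw [norm_smul, norm_pow]
      exact mul_le_of_le_one_left (norm_nonneg _) (pow_le_one₀ (norm_nonneg _) hl)
    rw [e, Nat.cast_succ]
    linarith [norm_add_le (P ((P ^ n) y - l ^ n • y)) (l ^ n • (P y - l • y)), ih.2]

variable (S N : H →L[ℂ] H) (hS : ∀ x, ‖S x‖ = ‖x‖)
include hS

lemma para (x : H) : ‖((2 : ℂ)⁻¹ • (1 + S)) x‖ ^ 2 + ‖(1 - S) x‖ ^ 2 / 4 = ‖x‖ ^ 2 := by
  have := parallelogram_law_with_norm ℂ x (S x)
  simp only [ContinuousLinearMap.smul_apply, ContinuousLinearMap.add_apply,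
    ContinuousLinearMap.sub_apply, ContinuousLinearMap.one_apply, norm_smul, norm_inv,
    Complex.norm_ofNat]
  rw [hS] at this
  nlinarith

lemma contr (x : H) : ‖((2 : ℂ)⁻¹ • (1 + S)) x‖ ≤ ‖x‖ :=
  (abs_le_of_sq_le_sq' (by linarith [para S hS x, sq_nonneg ‖(1 - S) x‖]) (norm_nonneg _)).2

lemma decay (y : H) : Tendsto (fun n : ℕ => ‖(1 - S) ((((2 : ℂ)⁻¹ • (1 + S) : H →L[ℂ] H) ^ n) y)‖)
    atTop (𝓝 0) := by
  set P : H →L[ℂ] H := (2 : ℂ)⁻¹ • (1 + S)
  have h : ∀ n, ‖(P ^ (n + 1)) y‖ ^ 2 + ‖(1 - S) ((P ^ n) y)‖ ^ 2 / 4 = ‖(P ^ n) y‖ ^ 2 :=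
    fun n => by rw [pow_succ' P]; exact para S hS _
  have ha : Antitone fun n => ‖(P ^ n) y‖ ^ 2 :=
    antitone_nat_of_succ_le fun n => by linarith [h n, sq_nonneg ‖(1 - S) ((P ^ n) y)‖]
  have hl := tendsto_atTop_ciInf ha ⟨0, by rintro _ ⟨n, rfl⟩; exact sq_nonneg _⟩
  have h2 := (hl.sub (hl.comp (tendsto_add_atTop_nat 1))).const_mul 4
  rw [sub_self, mul_zero] at h2
  have h3 : Tendsto (fun n => ‖(1 - S) ((P ^ n) y)‖ ^ 2) atTop (𝓝 0) :=
    h2.congr fun n => by simp only [Function.comp]; linarith [h n]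
  simpa using h3.sqrt

lemma lower (hc : Commute S N) (v : H) (h1 : ∀ j, ⟪v, (S ^ (j + 1)) v⟫_ℂ = 0)
    (h2 : ∀ j, ⟪N v, (S ^ (j + 1)) (N v)⟫_ℂ = 0) (z : ℂ) (hz : ‖z‖ = 1) (n : ℕ) :
    ‖(2⁻¹ * (1 + z)) ^ n * (1 - z)‖ * ‖N v‖ ≤
      ‖((2 : ℂ)⁻¹ • (1 + S)) ^ n * ((1 - S) * N)‖ * ‖v‖ := by
  set P := (2 : ℂ)⁻¹ • (1 + S) with hP
  set U := z⁻¹ • S with hU
  have z0 : z ≠ 0 := norm_pos_iff.1 (by rw [hz]; exact one_pos)
  have u1 : ∀ x, ‖U x‖ = ‖x‖ := fun x => by simp [hU, norm_smul, hz, hS]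
  have key : ∀ k : ℕ, ‖(2⁻¹ * (1 + z)) ^ n * (1 - z)‖ * ‖N v‖ * k ≤
      ‖P ^ n * ((1 - S) * N)‖ * ‖v‖ * k + (n + 1) * (2 * ‖N v‖) := by
    intro k
    have o : ∀ w : H, (∀ j, ⟪w, (S ^ (j + 1)) w⟫_ℂ = 0) →
        ‖(∑ j ∈ range (k ^ 2), U ^ j) w‖ = k * ‖w‖ := fun w hw => by
      have := orth U u1 w (fun j => by
        rw [hU, smul_pow, ContinuousLinearMap.smul_apply, inner_smul_right, hw, mul_zero]) (k ^ 2)
      refine (sq_eq_sq₀ (norm_nonneg _) (by positivity)).1 ?_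
      rw [this]
      push_cast
      ring
    set W := ∑ j ∈ range (k ^ 2), U ^ j with hW
    have cW : N (W v) = W (N v) := by
      have : Commute N W := Commute.sum_right _ _ _ fun j _ => (hc.symm.smul_right _).pow_right j
      exact congrArg (fun T : H →L[ℂ] H => T v) this.eq
    set y := W (N v) with hy
    have e1 : ‖S y - z • y‖ ≤ 2 * ‖N v‖ := by
      have a1 : S y - z • y = z • ((U - 1) * W) (N v) := by
        simp [hU, hy, smul_sub, smul_smul, z0]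
      rw [a1, hW, mul_geom_sum, norm_smul, hz, one_mul]
      have := (tele U (fun x => (u1 x).le) 0 (by simp) (N v) (k ^ 2)).1
      have h3 := norm_sub_le ((U ^ (k ^ 2)) (N v)) (N v)
      simp only [ContinuousLinearMap.sub_apply, ContinuousLinearMap.one_apply]
      linarith
    have l1 : ‖2⁻¹ * (1 + z)‖ ≤ 1 := by
      have := norm_add_le 1 z
      simp only [norm_mul, norm_inv, Complex.norm_ofNat, norm_one, hz] at this ⊢
      linarith
    have l2 : ‖1 - z‖ ≤ 2 := by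
      have := norm_sub_le 1 z
      simp only [norm_one, hz] at this
      linarith
    have e2 := (tele P (contr S hS) _ l1 y n).2
    have e3 : P y - (2⁻¹ * (1 + z)) • y = (2 : ℂ)⁻¹ • (S y - z • y) := by
      simp only [hP, ContinuousLinearMap.smul_apply, ContinuousLinearMap.add_apply,
        ContinuousLinearMap.one_apply]
      module
    rw [e3, norm_smul, norm_inv, Complex.norm_ofNat] at e2
    have e4 := (tele P (contr S hS) _ l1 (S y - z • y) n).1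
    have e5 : ((2⁻¹ * (1 + z)) ^ n * (1 - z)) • y = (P ^ n * ((1 - S) * N)) (W v) +
        (P ^ n) (S y - z • y) - (1 - z) • ((P ^ n) y - (2⁻¹ * (1 + z)) ^ n • y) := by
      simp only [ContinuousLinearMap.mul_apply, cW, ContinuousLinearMap.sub_apply,
        ContinuousLinearMap.one_apply, map_sub, map_smul, ← hy]
      module
    have e6 := congrArg norm e5
    rw [norm_smul, hy, o _ h2, ← hy] at e6
    have e7 := (P ^ n * ((1 - S) * N)).le_opNorm (W v)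
    rw [o _ h1] at e7
    have e8 := norm_sub_le ((P ^ n * ((1 - S) * N)) (W v) + (P ^ n) (S y - z • y))
      ((1 - z) • ((P ^ n) y - (2⁻¹ * (1 + z)) ^ n • y))
    have e9 := norm_add_le ((P ^ n * ((1 - S) * N)) (W v)) ((P ^ n) (S y - z • y))
    rw [norm_smul] at e8
    have e10 : ‖1 - z‖ * ‖(P ^ n) y - (2⁻¹ * (1 + z)) ^ n • y‖ ≤ 2 * (n * (2⁻¹ * (2 * ‖N v‖))) :=
      mul_le_mul l2 (e2.trans (by gcongr)) (norm_nonneg _) two_pos.le
    nlinarith
  by_contra hh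
  push Not at hh
  obtain ⟨k, hk⟩ := exists_nat_gt ((n + 1) * (2 * ‖N v‖) /
    (‖(2⁻¹ * (1 + z)) ^ n * (1 - z)‖ * ‖N v‖ - ‖P ^ n * ((1 - S) * N)‖ * ‖v‖))
  rw [div_lt_iff₀ (sub_pos.2 hh)] at hk
  nlinarith [key k]

omit hS in
lemma num (k : ℕ) : ∃ z : ℂ, ‖z‖ = 1 ∧
    (k : ℝ) ≤ ((2 * k ^ 2 : ℕ) + 1) * ‖(2⁻¹ * (1 + z)) ^ (2 * k ^ 2) * (1 - z)‖ := by
  have n1 : ‖(2 * k - Complex.I : ℂ)‖ ^ 2 = 4 * k ^ 2 + 1 := by
    rw [Complex.sq_norm, Complex.normSq_apply]; simp; ring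
  have n2 : ‖(2 * k + Complex.I : ℂ)‖ ^ 2 = 4 * k ^ 2 + 1 := by
    rw [Complex.sq_norm, Complex.normSq_apply]; simp; ring
  have n0 : (2 * k - Complex.I : ℂ) ≠ 0 := fun h => by
    rw [h, norm_zero] at n1
    nlinarith [sq_nonneg (k : ℝ)]
  refine ⟨(2 * k + Complex.I) / (2 * k - Complex.I), ?_, ?_⟩
  · rw [norm_div, (sq_eq_sq₀ (norm_nonneg _) (norm_nonneg _)).1 (n2.trans n1.symm),
      div_self (norm_ne_zero_iff.2 n0)]
  have e1 : 2⁻¹ * (1 + (2 * k + Complex.I) / (2 * k - Complex.I)) = 2 * k / (2 * k - Complex.I) := by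
    field_simp; ring
  have e2 : 1 - (2 * k + Complex.I) / (2 * k - Complex.I) = -2 * Complex.I / (2 * k - Complex.I) := by
    field_simp; ring
  refine (abs_le_of_sq_le_sq' ?_ (by positivity)).2
  have p : (0 : ℝ) < 4 * k ^ 2 + 1 := by positivity
  have b := one_add_mul_le_pow (a := -(1 / (4 * k ^ 2 + 1) : ℝ))
    (by have : (1 / (4 * k ^ 2 + 1) : ℝ) ≤ 1 := by rw [div_le_one p]; nlinarith [sq_nonneg (k : ℝ)]
        linarith) (2 * k ^ 2)
  have e3 : ‖(2 * k / (2 * k - Complex.I) : ℂ)‖ ^ 2 = 1 + -(1 / (4 * k ^ 2 + 1) : ℝ) := by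
    rw [norm_div, div_pow, n1]
    simp
    field_simp
    ring
  have e4 : ‖(-2 * Complex.I / (2 * k - Complex.I) : ℂ)‖ ^ 2 = 4 / (4 * k ^ 2 + 1) := by
    rw [norm_div, div_pow, n1]
    norm_num
  rw [e1, e2, mul_pow, norm_mul, mul_pow, norm_pow, ← pow_mul, mul_comm (2 * k ^ 2) 2, pow_mul,
    e3, e4]
  have b2 : (1 : ℝ) / 2 ≤ 1 + ((2 * k ^ 2 : ℕ) : ℝ) * -(1 / (4 * k ^ 2 + 1)) := by
    push_cast
    rw [mul_neg, mul_one_div, ← sub_eq_add_neg, le_sub_comm, div_le_iff₀ p]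
    linarith
  calc (k : ℝ) ^ 2 ≤ (((2 * k ^ 2 : ℕ) : ℝ) + 1) ^ 2 * (1 / 2 * (4 / (4 * k ^ 2 + 1))) := by
        push_cast
        rw [← mul_div_assoc, ← mul_div_assoc, le_div_iff₀ p]
        nlinarith [sq_nonneg (k : ℝ), sq_nonneg ((k : ℝ) ^ 2)]
    _ ≤ _ := by gcongr; exact b2.trans b

theorem core [CompleteSpace H] (hc : Commute S N) (hN : N * N = 0) (v : H) (hv : N v ≠ 0)
    (h1 : ∀ j, ⟪v, (S ^ (j + 1)) v⟫_ℂ = 0) (h2 : ∀ j, ⟪N v, (S ^ (j + 1)) (N v)⟫_ℂ = 0)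
    (T : H →L[ℂ] H) (hT : T = -((2 : ℂ)⁻¹ • (1 + S) + (1 - S) * N)) :
    (∀ f, ∃ l, Tendsto (fun n : ℕ => (n : ℂ)⁻¹ • ∑ k ∈ range n, (T ^ k) f) atTop (𝓝 l)) ∧
      ¬ ∃ C, ∀ n : ℕ, ‖T ^ n‖ ≤ C := by
  set P := (2 : ℂ)⁻¹ • (1 + S) with hP
  set D := (1 - S) * N with hD
  have c1 : Commute (1 - S) N := (Commute.one_left _).sub_left hc
  have c2 : Commute P (1 - S) :=
    (((Commute.one_left _).add_left ((Commute.one_right _).sub_right (Commute.refl S))).smul_left _)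
  have c3 : Commute P D := c2.mul_right (((Commute.one_left _).add_left hc).smul_left _)
  have d2 : D * D = 0 := by rw [hD, c1.symm.mul_mul_mul_comm, hN, mul_zero]
  have pw : ∀ n : ℕ, (P + D) ^ (n + 1) = P ^ (n + 1) + ((n : ℂ) + 1) • (P ^ n * D) := by
    intro n
    induction n with
    | zero => simp
    | succ n ih =>
      rw [pow_succ, ih, add_mul, mul_add, mul_add, smul_mul_assoc, smul_mul_assoc, mul_assoc _ D D,
        d2, mul_assoc _ D P, ← c3.eq, ← mul_assoc (P ^ n), ← pow_succ, ← pow_succ, mul_zero,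
        Nat.cast_succ]
      module
  have nT : ∀ n x, ‖(T ^ n) x‖ = ‖((P + D) ^ n) x‖ := fun n x => by
    rw [hT, neg_pow, ← neg_one_smul ℂ (1 : H →L[ℂ] H), smul_pow, one_pow, smul_mul_assoc, one_mul,
      ContinuousLinearMap.smul_apply, norm_smul]
    simp
  have hPn := fun n x => (tele P (contr S hS) 0 (by simp) x n).1
  constructor
  · intro f
    have hu : IsUnit (1 - T) := by
      have a1 : IsUnit (1 - (-(3 : ℂ)⁻¹) • S) := isUnit_one_sub_of_norm_lt_one (by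
        have : ‖S‖ ≤ 1 := S.opNorm_le_bound zero_le_one fun x => by rw [hS, one_mul]
        rw [norm_smul, norm_neg, norm_inv, Complex.norm_ofNat]
        linarith)
      have a2 : 1 + P = algebraMap ℂ _ (3 / 2) * (1 - (-(3 : ℂ)⁻¹) • S) := by
        rw [← Algebra.smul_def, hP]
        module
      have a3 : IsUnit (1 + P) := a2 ▸ ((IsUnit.mk0 _ (by norm_num)).map _).mul a1
      rw [hT, sub_neg_eq_add, ← add_assoc]
      exact IsNilpotent.isUnit_add_left_of_commute ⟨2, by rw [sq, d2]⟩ a3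
        ((Commute.one_right _).add_right c3.symm)
    obtain ⟨u, hu⟩ := hu
    have e : ∀ n : ℕ, ∑ k ∈ range n, (T ^ k) f = (↑u⁻¹ : H →L[ℂ] H) (f - (T ^ n) f) := fun n => by
      have := congrArg (fun A : H →L[ℂ] H => ((↑u⁻¹ : H →L[ℂ] H) * A) f) (mul_neg_geom_sum T n)
      simpa [← hu, ← mul_assoc] using this
    refine ⟨(↑u⁻¹ : H →L[ℂ] H) 0, ?_⟩
    simp only [e, ← map_smul]
    refine ((↑u⁻¹ : H →L[ℂ] H).continuous.tendsto 0).comp ?_
    rw [← tendsto_add_atTop_iff_nat 1]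
    have t1 := (tendsto_one_div_add_atTop_nhds_zero_nat (𝕜 := ℝ)).mul_const (2 * ‖f‖)
    have t2 := t1.add (decay S hS (N f))
    rw [zero_mul, zero_add] at t2
    refine squeeze_zero_norm (fun n => ?_) t2
    have b1 := norm_sub_le f ((T ^ (n + 1)) f)
    have b2 : ‖(T ^ (n + 1)) f‖ ≤ ‖f‖ + (n + 1) * ‖(1 - S) ((P ^ n) (N f))‖ := by
      rw [nT, pw, ContinuousLinearMap.add_apply]
      refine (norm_add_le _ _).trans (add_le_add (hPn _ _) (le_of_eq ?_))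
      rw [hD, ← mul_assoc, (c2.pow_left n).eq, ContinuousLinearMap.smul_apply, norm_smul]
      norm_cast
    have p : (0 : ℝ) < n + 1 := by positivity
    rw [norm_smul, norm_inv, Complex.norm_natCast, Nat.cast_succ, inv_mul_le_iff₀ p, mul_add, ← mul_assoc, mul_one_div_cancel p.ne', ← hP]
    linarith
  · rintro ⟨C, hC⟩
    have v0 := norm_pos_iff.2 hv
    obtain ⟨k, hk⟩ := exists_nat_gt ((C + 1) * ‖v‖ / ‖N v‖)
    rw [div_lt_iff₀ v0] at hk
    obtain ⟨z, hz, hz2⟩ := num k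
    have a1 := lower S N hS hc v h1 h2 z hz (2 * k ^ 2)
    generalize 2 * k ^ 2 = n at *
    rw [← hP, ← hD] at a1
    have C0 : 0 ≤ C := (norm_nonneg _).trans (hC 0)
    have a2 : ‖((n : ℂ) + 1) • (P ^ n * D)‖ ≤ C + 1 := by
      refine ContinuousLinearMap.opNorm_le_bound _ (by linarith) fun x => ?_
      have b1 := (T ^ (n + 1)).le_of_opNorm_le (hC _) x
      rw [nT, pw] at b1
      have b2 := norm_sub_le ((P ^ (n + 1) + ((n : ℂ) + 1) • (P ^ n * D)) x) ((P ^ (n + 1)) x)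
      rw [ContinuousLinearMap.add_apply, add_sub_cancel_left] at b2
      rw [ContinuousLinearMap.add_apply] at b1
      linarith [hPn (n + 1) x]
    rw [norm_smul, show ‖(n : ℂ) + 1‖ = n + 1 by norm_cast] at a2
    have a3 := mul_le_mul_of_nonneg_right hz2 v0.le
    have a4 := mul_le_mul_of_nonneg_left a1 (by positivity : (0 : ℝ) ≤ n + 1)
    have a5 := mul_le_mul_of_nonneg_right a2 (norm_nonneg v)
    nlinarith

end core

/-- The discrete group `S₃ × ℤ`. -/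
abbrev G : Type := Equiv.Perm (Fin 3) × Multiplicative ℤ

abbrev H : Type := lp (fun _ : G => ℂ) 2

lemma mem (g : G) (f : H) : Memℓp (fun x => f (g⁻¹ * x)) 2 :=
  memℓp_gen ((Equiv.mulLeft g⁻¹).summable_iff.2 ((memℓp_gen_iff (by norm_num)).1 f.2))

noncomputable def L0 (g : G) : H →ₗ[ℂ] H where
  toFun f := ⟨fun x => f (g⁻¹ * x), mem g f⟩
  map_add' _ _ := rfl
  map_smul' _ _ := rfl

lemma L0_norm (g : G) (f : H) : ‖L0 g f‖ = ‖f‖ := by
  rw [lp.norm_eq_tsum_rpow (by norm_num), lp.norm_eq_tsum_rpow (by norm_num) f]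
  congr 1
  exact (Equiv.mulLeft g⁻¹).tsum_eq fun x => ‖f x‖ ^ (2 : ℝ≥0∞).toReal

noncomputable def L : G →* (H →L[ℂ] H) where
  toFun g := (L0 g).mkContinuous 1 fun f => by rw [L0_norm, one_mul]
  map_one' := by
    ext f x
    exact congrArg f (by simp)
  map_mul' g h := by
    ext f x
    exact congrArg f (by simp [mul_assoc])

lemma L_apply (g : G) (f : H) (x : G) : L g f x = f (g⁻¹ * x) := rfl

/-- Bounded operators on `X`. -/
abbrev Op (X : Type) [NormedAddCommGroup X] [NormedSpace ℂ X] : Type := X →L[ℂ] X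

/-- The value of an operator at a vector. -/
def app {X : Type} [NormedAddCommGroup X] [NormedSpace ℂ X] (T : Op X) (f : X) : X := T f

/-- Mean ergodic operators. -/
def MeanErgodic {X : Type} [NormedAddCommGroup X] [NormedSpace ℂ X] (T : Op X) : Prop :=
  ∀ f, ∃ l, Tendsto (fun n : ℕ => (n : ℂ)⁻¹ • ∑ k ∈ range n, app (T ^ k) f) atTop (𝓝 l)

/-- Power bounded operators. -/
def PowerBounded {X : Type} [NormedAddCommGroup X] [NormedSpace ℂ X] (T : Op X) : Prop :=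
  ∃ C, ∀ n : ℕ, ‖T ^ n‖ ≤ C

theorem result : ∃ (Γ : Type) (_ : Group Γ) (_ : Countable Γ) (μ : Γ →₀ ℂ)
    (T : Op (lp (fun _ : Γ => ℂ) 2)),
    (∀ f x, app T f x = ∑ y ∈ μ.support, μ y * f (y⁻¹ * x)) ∧ MeanErgodic T ∧ ¬ PowerBounded T := by
  refine ⟨G, inferInstance, inferInstanceAs (Countable (Equiv.Perm (Fin 3) × ℤ)), ?_⟩
  set s : G := (1, Multiplicative.ofAdd 1) with hs
  set a : G := (Equiv.swap 0 1, 1) with ha
  set b : G := (Equiv.swap 1 2, 1) with hb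
  set N := (1 - L a) * L b * (1 + L a) with hN
  set T := -((2 : ℂ)⁻¹ • (1 + L s) + (1 - L s) * N) with hT
  have hm : T ∈ Submodule.span ℂ (Set.range L) := by
    have m : ∀ g, L g ∈ Algebra.adjoin ℂ (Set.range L) := fun g => Algebra.subset_adjoin ⟨g, rfl⟩
    have : T ∈ Algebra.adjoin ℂ (Set.range L) :=
      neg_mem (add_mem (Subalgebra.smul_mem _ (add_mem (one_mem _) (m _)) _)
        (mul_mem (sub_mem (one_mem _) (m _)) (mul_mem (mul_mem (sub_mem (one_mem _) (m _)) (m _))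
          (add_mem (one_mem _) (m _)))))
    rwa [← Subalgebra.mem_toSubmodule, Algebra.adjoin_eq_span, ← MonoidHom.coe_mrange, Submonoid.closure_eq] at this
  obtain ⟨μ, hμ⟩ := Finsupp.mem_span_range_iff_exists_finsupp.1 hm
  have sa : ∀ g : G, Commute (L s) (L g) := fun g => Commute.map (by ext <;> simp [hs, mul_comm]) L
  have Nx : ∀ (f : H) x, N f x = f (b⁻¹ * x) + f (a⁻¹ * (b⁻¹ * x)) -
      (f (b⁻¹ * (a⁻¹ * x)) + f (a⁻¹ * (b⁻¹ * (a⁻¹ * x)))) := fun f x => rfl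
  have ort : ∀ w : H, (∀ x : G, x.2 ≠ 1 → w x = 0) → ∀ j, ⟪w, (L s ^ (j + 1)) w⟫_ℂ = 0 := by
    intro w hw j
    rw [lp.inner_eq_tsum, ← map_pow]
    refine (tsum_congr fun x => ?_).trans tsum_zero
    by_cases hx : x.2 = 1
    · rw [L_apply, hw ((s ^ (j + 1))⁻¹ * x), inner_zero_right]
      intro h
      have := congrArg Multiplicative.toAdd h
      simp [hs, hx] at this
      omega
    · rw [hw x hx, inner_zero_left]
  have sv : ∀ x : G, x.2 ≠ 1 → (lp.single 2 1 1 : H) x = 0 := fun x hx =>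
    lp.single_apply_ne _ _ _ fun h => hx (by rw [h]; rfl)
  refine ⟨μ, T, fun f x => ?_, core (L s) N (L0_norm s) ?_ ?_ (lp.single 2 1 1) ?_ (ort _ sv)
    (ort _ fun x hx => ?_) T hT⟩
  · rw [app, ← hμ, Finsupp.sum, ContinuousLinearMap.sum_apply, lp.coeFn_sum, Finset.sum_apply]
    rfl
  · exact (((Commute.one_right _).sub_right (sa a)).mul_right (sa b)).mul_right
      ((Commute.one_right _).add_right (sa a))
  · have : L a * L a = 1 := by rw [← map_mul, ← map_one L]; congr 1; decide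
    have : (1 + L a) * (1 - L a) = 0 := by rw [add_mul, mul_sub, mul_sub, this]; simp
    rw [hN, mul_assoc, ← mul_assoc (1 + L a), ← mul_assoc (1 + L a), this]
    simp
  · intro h
    have := Nx (lp.single 2 1 1) b
    rw [h, inv_mul_cancel, lp.single_apply_self, lp.single_apply_ne _ _ _ (by decide),
      lp.single_apply_ne _ _ _ (by decide), lp.single_apply_ne _ _ _ (by decide)] at this
    simp at this
  · rw [Nx, sv, sv, sv, sv] <;> simp [ha, hb, hx]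

end Pool.Agent.Results.MP_27f8b5_an.Counter
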